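import Pool.Agent.H44.MS.Basics

/-!
# MP_232a1c_nt, module PS: the weight is nonnegative and detects sums of two squares
-/

set_option autoImplicit false

namespace Pool.Agent.H47.MS

open Finset Real Pool.Agent.H44.MS

/-- the character as an arithmetic function -/
noncomputable def chiA : ArithmeticFunction ℝ := ⟨fun n => chi n, chi_zero⟩

theorem chiA_mult : chiA.IsMultiplicative := by
  refine ⟨chi_one, ?_⟩
  intro m n _
  exact chi_mul m n

theorem rr_eq (q : ℕ) : rr q = (chiA * (ArithmeticFunction.zeta : ArithmeticFunction ℝ)) q := by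
  rw [ArithmeticFunction.coe_mul_zeta_apply]
  rfl

theorem rr_mul {a b : ℕ} (h : Nat.Coprime a b) : rr (a * b) = rr a * rr b := by
  rw [rr_eq, rr_eq, rr_eq]
  exact (chiA_mult.mul ArithmeticFunction.isMultiplicative_zeta.natCast).map_mul_of_coprime h

theorem chi_pow (p i : ℕ) : chi (p ^ i) = chi p ^ i := by
  induction i with
  | zero => rw [pow_zero, pow_zero, chi_one]
  | succ i ih => rw [pow_succ, pow_succ, chi_mul, ih]

theorem rr_prime_pow {p k : ℕ} (hp : p.Prime) :
    rr (p ^ k) = ∑ i ∈ range (k + 1), chi p ^ i := by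
  unfold rr
  rw [Nat.sum_divisors_prime_pow hp]
  exact Finset.sum_congr rfl fun i _ => chi_pow p i

theorem rr_pp {p k : ℕ} (hp : p.Prime) :
    0 ≤ rr (p ^ k) ∧ (0 < rr (p ^ k) → p % 4 = 3 → Even k) := by
  rw [rr_prime_pow hp]
  by_cases h3 : p % 4 = 3
  · rw [chi_of_three h3, neg_one_geom_sum]
    by_cases he : Even (k + 1)
    · rw [if_pos he]
      exact ⟨le_rfl, fun h => absurd h (lt_irrefl _)⟩
    · rw [if_neg he]
      refine ⟨zero_le_one, fun _ _ => ?_⟩
      rwa [Nat.even_add_one, not_not] at he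
  · refine ⟨Finset.sum_nonneg fun i _ => pow_nonneg ?_ _, fun _ h => absurd h h3⟩
    rw [chi_eq, if_neg h3]
    split_ifs <;> norm_num

theorem rr_main (q : ℕ) : 0 < q → 0 ≤ rr q ∧
    (0 < rr q → ∀ p : ℕ, p.Prime → p % 4 = 3 → Even (q.factorization p)) := by
  induction q using Nat.recOnPosPrimePosCoprime with
  | zero => intro h; exact absurd h (lt_irrefl 0)
  | one =>
    intro _
    have : rr 1 = 1 := by
      unfold rr
      rw [Nat.divisors_one, Finset.sum_singleton, chi_one]
    rw [this]
    refine ⟨zero_le_one, fun _ p _ _ => ?_⟩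
    rw [Nat.factorization_one]
    exact Even.zero
  | prime_pow p n hp _ =>
    intro _
    refine ⟨(rr_pp hp).1, fun h p' _ hp3 => ?_⟩
    rw [hp.factorization_pow, Finsupp.single_apply]
    split_ifs with h1
    · exact (rr_pp hp).2 h (h1 ▸ hp3)
    · exact Even.zero
  | coprime a b ha hb hab iha ihb =>
    intro _
    obtain ⟨a1, a2⟩ := iha (by omega)
    obtain ⟨b1, b2⟩ := ihb (by omega)
    rw [rr_mul hab]
    refine ⟨mul_nonneg a1 b1, fun h p hp hp3 => ?_⟩
    have ha0 : 0 < rr a := by
      rcases a1.lt_or_eq with h1 | h1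
      · exact h1
      · rw [← h1, zero_mul] at h
        exact absurd h (lt_irrefl _)
    have hb0 : 0 < rr b := by
      rcases b1.lt_or_eq with h1 | h1
      · exact h1
      · rw [← h1, mul_zero] at h
        exact absurd h (lt_irrefl _)
    rw [Nat.factorization_mul (by omega) (by omega), Finsupp.add_apply]
    exact (a2 ha0 p hp hp3).add (b2 hb0 p hp hp3)

theorem pf_PS : T_PS := by
  intro z m hm
  obtain ⟨h1, h2⟩ := rr_main (rp z m) (rp_pos z m)
  unfold ff
  refine ⟨mul_nonneg (ic_nonneg _) h1, fun h => ?_⟩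
  have hG : Good 0 z m := by
    by_contra hn
    rw [ic_neg hn, zero_mul] at h
    exact lt_irrefl _ h
  rw [ic_pos hG, one_mul] at h
  refine Nat.eq_sq_add_sq_iff.2 ?_
  intro q hq hq3
  have hqp := Nat.prime_of_mem_primeFactors hq
  have hqm := Nat.dvd_of_mem_primeFactors hq
  have hzq : z < q := by
    by_contra hn
    exact hG q hqp hq3 hqp.pos (not_lt.1 hn) hqm
  rw [← Nat.factorization_def m hqp]
  have h3 := h2 h q hqp hq3
  have h4 : m.factorization q = (sp z m).factorization q + (rp z m).factorization q := by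
    conv_lhs => rw [← sp_mul_rp z hm]
    rw [Nat.factorization_mul (sp_pos z m).ne' (rp_pos z m).ne', Finsupp.add_apply]
  have h5 : (sp z m).factorization q = 0 := by
    refine Nat.factorization_eq_zero_of_not_dvd fun hd => ?_
    exact absurd (smooth_sp z m q hqp hd) (not_le.2 hzq)
  rw [h4, h5, zero_add]
  exact h3

end Pool.Agent.H47.MS
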