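import Pool.Agent.H44.MS.Basics

/-!
# MP_232a1c_nt, module TJ: the logarithmic means of the coefficients
-/

set_option autoImplicit false

namespace Pool.Agent.H47.MS

open Finset Real Pool.Agent.H44.MS

/-- sums over the factorisations -/
theorem tj_sum_anti (K D E : ℕ) (hK : D * E ≤ K) (G : ℕ → ℕ → ℝ)
    (h0 : ∀ d e, 0 < d → 0 < e → ¬ (d ≤ D ∧ e ≤ E) → G d e = 0) :
    ∑ k ∈ Icc 1 K, ∑ x ∈ k.divisorsAntidiagonal, G x.1 x.2 =
      ∑ d ∈ Icc 1 D, ∑ e ∈ Icc 1 E, G d e := by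
  rw [← Finset.sum_product' (Icc 1 D) (Icc 1 E) (fun d e => G d e)]
  have h1 : ∀ x ∈ Icc 1 D ×ˢ Icc 1 E, G x.1 x.2 =
      ∑ k ∈ Icc 1 K, if x.1 * x.2 = k then G x.1 x.2 else 0 := by
    intro x hx
    rw [Finset.mem_product, Finset.mem_Icc, Finset.mem_Icc] at hx
    rw [Finset.sum_ite_eq, if_pos]
    rw [Finset.mem_Icc]
    exact ⟨Nat.mul_pos hx.1.1 hx.2.1, (Nat.mul_le_mul hx.1.2 hx.2.2).trans hK⟩
  rw [Finset.sum_congr rfl h1, Finset.sum_comm]
  refine Finset.sum_congr rfl fun k hk => ?_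
  rw [Finset.mem_Icc] at hk
  rw [← Finset.sum_filter]
  symm
  refine Finset.sum_subset ?_ ?_
  · intro x hx
    rw [Finset.mem_filter] at hx
    rw [Nat.mem_divisorsAntidiagonal]
    exact ⟨hx.2, by omega⟩
  · intro x hx hx'
    rw [Nat.mem_divisorsAntidiagonal] at hx
    have hk0 : 0 < x.1 * x.2 := by omega
    have hd : 0 < x.1 := Nat.pos_of_mul_pos_right hk0
    have he : 0 < x.2 := Nat.pos_of_mul_pos_left hk0
    refine h0 x.1 x.2 hd he fun h => hx' ?_
    rw [Finset.mem_filter, Finset.mem_product, Finset.mem_Icc, Finset.mem_Icc]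
    exact ⟨⟨⟨hd, h.1⟩, ⟨he, h.2⟩⟩, hx.1⟩

/-- the harmonic sum over multiples -/
theorem tj_harm_mul (N j : ℕ) (hj : 1 ≤ j) :
    ∑ n ∈ Icc 1 N, ic (j ∣ n) / (n : ℝ) ≤ 1 / j * (1 + Real.log N) := by
  have hj0 : (0 : ℝ) < j := by exact_mod_cast hj
  have h1 : ∑ n ∈ Icc 1 N, ic (j ∣ n) / (n : ℝ) ≤ ∑ n ∈ Icc 1 N, 1 / (j * n : ℝ) := by
    classical
    have e1 : ∑ n ∈ Icc 1 N, ic (j ∣ n) / (n : ℝ) =
        ∑ n ∈ (Icc 1 N).filter (fun n => j ∣ n), 1 / (n : ℝ) := by
      rw [← sum_ic_mul]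
      refine Finset.sum_congr rfl fun n _ => ?_
      rw [mul_one_div]
    have e2 : (Icc 1 N).filter (fun n => j ∣ n) ⊆ (Icc 1 N).image (fun n => j * n) := by
      intro n hn
      rw [Finset.mem_filter, Finset.mem_Icc] at hn
      obtain ⟨⟨hn1, hn2⟩, c, rfl⟩ := hn
      rw [Finset.mem_image]
      refine ⟨c, ?_, rfl⟩
      rw [Finset.mem_Icc]
      have hc : 0 < c := Nat.pos_of_mul_pos_left (show 0 < j * c by omega)
      exact ⟨hc, (Nat.le_mul_of_pos_left c hj).trans hn2⟩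
    rw [e1]
    refine (Finset.sum_le_sum_of_subset_of_nonneg e2 fun n _ _ => by positivity).trans ?_
    rw [Finset.sum_image]
    · refine le_of_eq (Finset.sum_congr rfl fun n _ => ?_)
      push_cast
      rfl
    · intro a _ b _ hab
      exact Nat.eq_of_mul_eq_mul_left hj hab
  refine h1.trans ?_
  have h2 : ∑ n ∈ Icc 1 N, 1 / (j * n : ℝ) = 1 / j * ∑ n ∈ Icc 1 N, 1 / (n : ℝ) := by
    rw [Finset.mul_sum]
    refine Finset.sum_congr rfl fun n _ => ?_
    rw [one_div_mul_one_div]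
  rw [h2]
  exact mul_le_mul_of_nonneg_left (harmonic_le N) (by positivity)

/-- the expansion of the logarithmic mean -/
theorem tj_Tc_eq (LV : T_LV) (y s z E j : ℕ) (hz : 2 ≤ z) :
    Tc (cc y s z E) (z ^ (4 * s + 4) * E) j =
      2 * ∑ d ∈ Icc 1 (z ^ (4 * s + 4)), ∑ e ∈ Icc 1 E,
        ic (j ∣ d * e) * ((lam (A3 y) s z d / d) * (ic (Rough z e) * chi e / e)) := by
  unfold Tc cc
  have h1 : ∀ k ∈ Icc 1 (z ^ (4 * s + 4) * E),
      ic (j ∣ k) * (2 * ∑ x ∈ k.divisorsAntidiagonal,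
        lam (A3 y) s z x.1 * (ic (Rough z x.2 ∧ x.2 ≤ E) * chi x.2)) / k =
      2 * ∑ x ∈ k.divisorsAntidiagonal, ic (j ∣ x.1 * x.2) * ((lam (A3 y) s z x.1 / x.1) *
        (ic (Rough z x.2 ∧ x.2 ≤ E) * chi x.2 / x.2)) := by
    intro k _
    rw [mul_div_assoc, mul_div_assoc, Finset.sum_div, Finset.mul_sum, Finset.mul_sum,
      Finset.mul_sum]
    refine Finset.sum_congr rfl fun x hx => ?_
    rw [Nat.mem_divisorsAntidiagonal] at hx
    rw [← hx.1]
    push_cast
    rw [mul_div_mul_comm]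
    ring
  rw [Finset.sum_congr rfl h1, ← Finset.mul_sum]
  rw [tj_sum_anti (z ^ (4 * s + 4) * E) (z ^ (4 * s + 4)) E le_rfl (fun d e => ic (j ∣ d * e) *
    ((lam (A3 y) s z d / d) * (ic (Rough z e ∧ e ≤ E) * chi e / e)))]
  · congr 1
    refine Finset.sum_congr rfl fun d _ => Finset.sum_congr rfl fun e he => ?_
    rw [Finset.mem_Icc] at he
    rw [ic_congr (show (Rough z e ∧ e ≤ E) ↔ Rough z e from ⟨fun h => h.1, fun h => ⟨h, he.2⟩⟩)]
  · intro d e _ _ h
    by_cases hd : d ≤ z ^ (4 * s + 4)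
    · have he : ¬ (Rough z e ∧ e ≤ E) := fun h2 => h ⟨hd, h2.2⟩
      rw [ic_neg he]
      simp
    · have hl : lam (A3 y) s z d = 0 := by
        unfold lam
        rw [ic_neg (fun h2 => hd ((LV (A3 y) s z d hz).1 h2)), zero_mul]
      rw [hl]
      simp

theorem pf_TJ (DNd : T_DNd) (LV : T_LV) : T_TJ := by
  obtain ⟨C, hC, S, hS⟩ := DNd
  refine ⟨C, hC, S, fun s hs y z E hz hE => ⟨?_, ?_, ?_⟩⟩
  · rw [tj_Tc_eq LV y s z E 1 hz]
    unfold MV SD AE
    rw [mul_assoc, Finset.sum_mul_sum]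
    congr 1
    refine Finset.sum_congr rfl fun d _ => Finset.sum_congr rfl fun e _ => ?_
    rw [ic_pos (one_dvd _), one_mul]
  · intro j hj hjz
    have hj0 : 0 < j := by omega
    rw [tj_Tc_eq LV y s z E j hz]
    have h1 : ∑ d ∈ Icc 1 (z ^ (4 * s + 4)), ∑ e ∈ Icc 1 E,
        ic (j ∣ d * e) * ((lam (A3 y) s z d / d) * (ic (Rough z e) * chi e / e)) =
        (∑ d ∈ Icc 1 (z ^ (4 * s + 4)), ic (j ∣ d) * lam (A3 y) s z d / d) * AE z E := by
      unfold AE
      rw [Finset.sum_mul_sum]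
      refine Finset.sum_congr rfl fun d _ => Finset.sum_congr rfl fun e he => ?_
      by_cases hR : Rough z e
      · have hsm : Smooth z j := fun p _ hpj => (Nat.le_of_dvd hj0 hpj).trans hjz
        have hco : Nat.Coprime j e := coprime_of_smooth_rough hsm hR
        rw [ic_congr (show j ∣ d * e ↔ j ∣ d from
          ⟨fun h => hco.dvd_of_dvd_mul_right h, fun h => h.mul_right e⟩)]
        ring
      · rw [ic_neg hR]
        simp
    rw [h1, abs_mul, abs_mul, abs_two]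
    have h2 := hS s hs (A3 y) z hz j hj0
    calc 2 * (|∑ d ∈ Icc 1 (z ^ (4 * s + 4)), ic (j ∣ d) * lam (A3 y) s z d / d| * |AE z E|)
        ≤ 2 * ((ic (An (A3 y) z j) * C ^ (j.primeFactors.card + 1) * VA (A3 y) z / j) *
          |AE z E|) := by gcongr
      _ = _ := by ring
  · intro j hj
    have hj0 : 0 < j := hj
    rw [tj_Tc_eq LV y s z E j hz, abs_mul, abs_two]
    have hsp := sp_mul_rp z hj0
    have h1 : |∑ d ∈ Icc 1 (z ^ (4 * s + 4)), ∑ e ∈ Icc 1 E,
        ic (j ∣ d * e) * ((lam (A3 y) s z d / d) * (ic (Rough z e) * chi e / e))| ≤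
        (∑ d ∈ Icc 1 (z ^ (4 * s + 4)), ic (sp z j ∣ d) / d) *
          ∑ e ∈ Icc 1 E, ic (rp z j ∣ e) / e := by
      rw [Finset.sum_mul_sum]
      refine (Finset.abs_sum_le_sum_abs _ _).trans (Finset.sum_le_sum fun d _ => ?_)
      refine (Finset.abs_sum_le_sum_abs _ _).trans (Finset.sum_le_sum fun e _ => ?_)
      have hnn : 0 ≤ ic (sp z j ∣ d) / (d : ℝ) * (ic (rp z j ∣ e) / (e : ℝ)) :=
        mul_nonneg (div_nonneg (ic_nonneg _) (Nat.cast_nonneg _))
          (div_nonneg (ic_nonneg _) (Nat.cast_nonneg _))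
      by_cases hR : Rough z e
      · by_cases hA : An (A3 y) z d
        · by_cases hjde : j ∣ d * e
          · have e1 : sp z j ∣ d := by
              have h2 : sp z j ∣ d * e := (sp_dvd z j).trans hjde
              exact (coprime_of_smooth_rough (smooth_sp z j) hR).dvd_of_dvd_mul_right h2
            have e2 : rp z j ∣ e := by
              have h2 : rp z j ∣ d * e := (rp_dvd z j).trans hjde
              exact (coprime_of_smooth_rough (an_smooth hA) (rough_rp z j)).symm.dvd_of_dvd_mul_left h2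
            rw [ic_pos e1, ic_pos e2, ic_pos hR, ic_pos hjde, one_mul, one_mul, abs_mul, abs_div,
              abs_div, Nat.abs_cast, Nat.abs_cast]
            have a1 := abs_lam_le (A3 y) s z d
            have a2 := abs_chi_le e
            gcongr
          · rw [ic_neg hjde, zero_mul, abs_zero]
            exact hnn
        · have hl : lam (A3 y) s z d = 0 := by
            unfold lam
            rw [ic_neg (fun h2 => hA h2.1), zero_mul]
          rw [hl]
          simp only [zero_div, zero_mul, mul_zero, abs_zero]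
          exact hnn
      · rw [ic_neg hR]
        simp only [zero_div, zero_mul, mul_zero, abs_zero]
        exact hnn
    have h2 := tj_harm_mul (z ^ (4 * s + 4)) (sp z j) (sp_pos z j)
    have h3 := tj_harm_mul E (rp z j) (rp_pos z j)
    have hz1 : (1 : ℝ) ≤ (z : ℝ) ^ (4 * s + 4) := one_le_pow₀ (by exact_mod_cast (by omega : 1 ≤ z))
    have hE1 : (1 : ℝ) ≤ E := by exact_mod_cast hE
    have l1 := Real.log_nonneg hz1
    have l2 := Real.log_nonneg hE1
    push_cast at h2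
    have h4 : (1 : ℝ) / j = 1 / (sp z j) * (1 / (rp z j)) := by
      rw [one_div_mul_one_div]
      congr 1
      exact_mod_cast hsp.symm
    have hs0 : (0 : ℝ) ≤ ∑ e ∈ Icc 1 E, ic (rp z j ∣ e) / (e : ℝ) :=
      Finset.sum_nonneg fun e _ => div_nonneg (ic_nonneg _) (Nat.cast_nonneg _)
    calc 2 * |∑ d ∈ Icc 1 (z ^ (4 * s + 4)), ∑ e ∈ Icc 1 E,
        ic (j ∣ d * e) * ((lam (A3 y) s z d / d) * (ic (Rough z e) * chi e / e))|
        ≤ 2 * ((1 / (sp z j) * (1 + Real.log ((z : ℝ) ^ (4 * s + 4)))) *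
          (1 / (rp z j) * (1 + Real.log E))) := by
          refine mul_le_mul_of_nonneg_left (h1.trans ?_) (by norm_num)
          refine mul_le_mul h2 h3 hs0 (by positivity)
      _ = 2 * (1 / (sp z j) * (1 / (rp z j))) * (1 + Real.log ((z : ℝ) ^ (4 * s + 4))) *
          (1 + Real.log E) := by ring
      _ = _ := by rw [← h4]; ring

end Pool.Agent.H47.MS
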